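import Pool.Agent.Helper60.SB.Defs4
import Pool.Agent.Helper96.SB.S

/-!
Module L8 of MP_7fc85e_an: packing in the classes `H` for small smoothness.
-/

open Finset MeasureTheory
open scoped ENNReal Real

namespace Pool.Agent.Helper73.SB

open Pool.Agent.Helper60.SB

lemma abs_clip_le {K : ℝ} (hK : 0 ≤ K) (t : ℝ) : |clip K t| ≤ K := by
  unfold clip
  rw [abs_le]
  constructor
  · exact le_max_left _ _
  · exact max_le (by linarith) (min_le_left _ _)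

lemma sblk_continuous {d : ℕ} (u : ℝ → ℝ) (hub : ∀ s c, Continuous (ub u s c))
    (s c : Fin d → ℕ) : Continuous (sblk u s c) := by
  unfold sblk
  exact continuous_finsetProd _ fun j _ => (hub (s j) (c j)).comp (continuous_apply j)

lemma sblk_periodic {d : ℕ} (u : ℝ → ℝ) (hub : ∀ s c x, ub u s c (x + 2 * π) = ub u s c x)
    (s c : Fin d → ℕ) (x : Fin d → ℝ) (j : Fin d) :
    sblk u s c (Function.update x j (x j + 2 * π)) = sblk u s c x := by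
  unfold sblk
  refine Finset.prod_congr rfl fun i _ => ?_
  by_cases h : i = j
  · subst h
    rw [Function.update_self, hub]
  · rw [Function.update_of_ne h]

/-- the energy identity -/
lemma sum_SX_mul {d N : ℕ} (u : ℝ → ℝ) (Sh : Finset (Fin d → ℕ))
    (hkb : ∀ x y : Fin d → ℝ, kb u Sh x y = ∑ s ∈ Sh, ∑ c ∈ cells s, sblk u s c x * sblk u s c y)
    (X Y : Fin N → Fin d → ℝ) :
    ∑ s ∈ Sh, ∑ c ∈ cells s, SX u X s c * SX u Y s c = ∑ i, ∑ j, kb u Sh (X i) (Y j) := by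
  simp only [hkb, SX, Finset.sum_mul_sum]
  have e1 : ∀ s ∈ Sh, ∑ c ∈ cells s, ∑ i, ∑ j, sblk u s c (X i) * sblk u s c (Y j) =
      ∑ i, ∑ j, ∑ c ∈ cells s, sblk u s c (X i) * sblk u s c (Y j) := by
    intro s _
    rw [Finset.sum_comm]
    refine Finset.sum_congr rfl fun i _ => ?_
    rw [Finset.sum_comm]
  rw [Finset.sum_congr rfl e1, Finset.sum_comm]
  refine Finset.sum_congr rfl fun i _ => ?_
  rw [Finset.sum_comm]

/-- the coefficients -/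
noncomputable def coef {d N : ℕ} (u : ℝ → ℝ) (w K : ℝ) (X : Fin N → Fin d → ℝ)
    (s c : Fin d → ℕ) : ℝ :=
  w * (Real.sqrt (N / 2 ^ (∑ j, s j)) * clip K (SX u X s c / Real.sqrt (N / 2 ^ (∑ j, s j))))

/-- the real valued functions -/
noncomputable def FX {d N : ℕ} (u : ℝ → ℝ) (Sh : Finset (Fin d → ℕ)) (KH w K : ℝ)
    (X : Fin N → Fin d → ℝ) (x : Fin d → ℝ) : ℝ :=
  KH * ∑ s ∈ Sh, ∑ c ∈ cells s, coef u w K X s c * sblk u s c x

/-- the exceptional energy -/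
noncomputable def EK {d N : ℕ} (u : ℝ → ℝ) (Sh : Finset (Fin d → ℕ)) (K : ℝ)
    (X : Fin N → Fin d → ℝ) : ℝ :=
  ∑ s ∈ Sh, ∑ c ∈ cells s,
    (if K * Real.sqrt (N / 2 ^ (∑ j, s j)) < |SX u X s c| then SX u X s c ^ 2 else 0)

lemma sum_FX {d N : ℕ} (u : ℝ → ℝ) (Sh : Finset (Fin d → ℕ)) (KH w K : ℝ)
    (X Z : Fin N → Fin d → ℝ) :
    ∑ i, FX u Sh KH w K X (Z i) = KH * ∑ s ∈ Sh, ∑ c ∈ cells s, coef u w K X s c * SX u Z s c := by
  unfold FX SX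
  rw [← Finset.mul_sum, Finset.sum_comm]
  congr 1
  refine Finset.sum_congr rfl fun s _ => ?_
  rw [Finset.sum_comm]
  refine Finset.sum_congr rfl fun c _ => ?_
  rw [Finset.mul_sum]

/-- the main inequality: two functions which are close have correlated point sets -/
lemma main_ineq {d N : ℕ} (u : ℝ → ℝ) (Sh : Finset (Fin d → ℕ)) {KH w K : ℝ}
    (hKH : 0 < KH) (hw : 0 < w) (hK : 0 < K) (hN : 0 < N)
    (hkb : ∀ x y : Fin d → ℝ, kb u Sh x y = ∑ s ∈ Sh, ∑ c ∈ cells s, sblk u s c x * sblk u s c y)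
    (hclip : ∀ {ι : Type} (I : Finset ι) (a b τ : ι → ℝ) (K : ℝ) (_ : 0 < K)
      (_ : ∀ i ∈ I, 0 < τ i),
      ∑ i ∈ I, (a i - b i) ^ 2 - 4 * ∑ i ∈ I, (if K * τ i < |a i| then a i ^ 2 else 0) -
        4 * ∑ i ∈ I, (if K * τ i < |b i| then b i ^ 2 else 0) ≤
      ∑ i ∈ I, τ i * (clip K (a i / τ i) - clip K (b i / τ i)) * (a i - b i))
    (X Y : Fin N → Fin d → ℝ) {κ0 ε : ℝ} (hκ0 : 0 < κ0) (hε : ε = KH * w * κ0 / 8)
    (hX : 15 / 16 * (N * κ0) ≤ ∑ i, ∑ j, kb u Sh (X i) (X j))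
    (hY : 15 / 16 * (N * κ0) ≤ ∑ i, ∑ j, kb u Sh (Y i) (Y j))
    (hEX : EK u Sh K X < N * κ0 / 32) (hEY : EK u Sh K Y < N * κ0 / 32)
    (hclose : ∀ x, |FX u Sh KH w K X x - FX u Sh KH w K Y x| ≤ 2 * ε) :
    N * κ0 / 2 ≤ ∑ i, ∑ j, kb u Sh (X i) (Y j) := by
  by_contra hcon
  push Not at hcon
  have hNr : (0:ℝ) < N := by exact_mod_cast hN
  -- upper bound
  have up : (∑ i, (FX u Sh KH w K X (X i) - FX u Sh KH w K Y (X i))) -
      ∑ i, (FX u Sh KH w K X (Y i) - FX u Sh KH w K Y (Y i)) ≤ 4 * N * ε := by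
    have h1 : ∑ i, (FX u Sh KH w K X (X i) - FX u Sh KH w K Y (X i)) ≤ ∑ _i : Fin N, 2 * ε :=
      Finset.sum_le_sum fun i _ => (abs_le.1 (hclose (X i))).2
    have h2 : ∑ _i : Fin N, -(2 * ε) ≤ ∑ i, (FX u Sh KH w K X (Y i) - FX u Sh KH w K Y (Y i)) :=
      Finset.sum_le_sum fun i _ => (abs_le.1 (hclose (Y i))).1
    simp only [Finset.sum_const, Finset.card_univ, Fintype.card_fin, nsmul_eq_mul] at h1 h2
    linarith
  -- identity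
  have id1 : (∑ i, (FX u Sh KH w K X (X i) - FX u Sh KH w K Y (X i))) -
      ∑ i, (FX u Sh KH w K X (Y i) - FX u Sh KH w K Y (Y i)) =
      KH * ∑ s ∈ Sh, ∑ c ∈ cells s,
        (coef u w K X s c - coef u w K Y s c) * (SX u X s c - SX u Y s c) := by
    simp only [Finset.sum_sub_distrib, sum_FX]
    rw [← mul_sub, ← mul_sub, ← mul_sub]
    congr 1
    simp only [← Finset.sum_sub_distrib]
    refine Finset.sum_congr rfl fun s _ => Finset.sum_congr rfl fun c _ => ?_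
    ring
  have hτ : ∀ s : Fin d → ℕ, 0 < Real.sqrt (N / 2 ^ (∑ j, s j)) := fun s =>
    Real.sqrt_pos.2 (by positivity)
  have low := hclip (Sh.sigma fun s => cells s) (fun z => SX u X z.1 z.2) (fun z => SX u Y z.1 z.2)
    (fun z => Real.sqrt (N / 2 ^ (∑ j, z.1 j))) K hK (fun z _ => hτ z.1)
  simp only [Finset.sum_sigma] at low
  have e1 : ∑ s ∈ Sh, ∑ c ∈ cells s,
        (coef u w K X s c - coef u w K Y s c) * (SX u X s c - SX u Y s c) =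
      w * ∑ s ∈ Sh, ∑ c ∈ cells s, Real.sqrt (N / 2 ^ (∑ j, s j)) *
        (clip K (SX u X s c / Real.sqrt (N / 2 ^ (∑ j, s j))) -
          clip K (SX u Y s c / Real.sqrt (N / 2 ^ (∑ j, s j)))) * (SX u X s c - SX u Y s c) := by
    rw [Finset.mul_sum]
    refine Finset.sum_congr rfl fun s _ => ?_
    rw [Finset.mul_sum]
    refine Finset.sum_congr rfl fun c _ => ?_
    unfold coef
    ring
  have e2 : ∑ s ∈ Sh, ∑ c ∈ cells s, (SX u X s c - SX u Y s c) ^ 2 =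
      (∑ i, ∑ j, kb u Sh (X i) (X j)) + (∑ i, ∑ j, kb u Sh (Y i) (Y j)) -
        2 * ∑ i, ∑ j, kb u Sh (X i) (Y j) := by
    rw [← sum_SX_mul u Sh hkb, ← sum_SX_mul u Sh hkb, ← sum_SX_mul u Sh hkb, Finset.mul_sum,
      ← Finset.sum_add_distrib, ← Finset.sum_sub_distrib]
    refine Finset.sum_congr rfl fun s _ => ?_
    rw [Finset.mul_sum, ← Finset.sum_add_distrib, ← Finset.sum_sub_distrib]
    refine Finset.sum_congr rfl fun c _ => ?_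
    ring
  rw [e2] at low
  unfold EK at hEX hEY
  have low2 : 5 / 8 * (N * κ0) < ∑ s ∈ Sh, ∑ c ∈ cells s, Real.sqrt (N / 2 ^ (∑ j, s j)) *
        (clip K (SX u X s c / Real.sqrt (N / 2 ^ (∑ j, s j))) -
          clip K (SX u Y s c / Real.sqrt (N / 2 ^ (∑ j, s j)))) * (SX u X s c - SX u Y s c) := by
    linarith
  rw [id1, e1] at up
  have h5 : KH * (w * (5 / 8 * (N * κ0))) < 4 * N * ε := by
    refine lt_of_lt_of_le ?_ up
    exact mul_lt_mul_of_pos_left (mul_lt_mul_of_pos_left low2 hw) hKH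
  rw [hε] at h5
  have h6 : 0 < KH * w * (N * κ0) := by positivity
  nlinarith

lemma nu_pos {u : ℝ → ℝ} (hu : Continuous u)
    (hpl : ∀ t, 7 / 12 ≤ t → t ≤ 2 / 3 → 1 / 3 ≤ u t)
    (hsupp : ∀ t, (t ≤ 1 / 10 ∨ 9 / 10 ≤ t) → u t = 0) : 0 < ∫ t, u t ^ 2 := by
  refine Continuous.integral_pos_of_hasCompactSupport_nonneg_nonzero (x := 2 / 3) (hu.pow 2) ?_ ?_ ?_
  · refine HasCompactSupport.intro (isCompact_Icc (a := (1 / 10 : ℝ)) (b := 9 / 10)) ?_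
    intro x hx
    rw [Set.mem_Icc, not_and_or, not_le, not_le] at hx
    have : u x = 0 := hsupp x (by rcases hx with h | h; exacts [Or.inl h.le, Or.inr h.le])
    simp [this]
  · intro t
    positivity
  · have := hpl (2 / 3) (by norm_num) le_rfl
    positivity

lemma isProb_tor1 : IsProbabilityMeasure tor1 := by
  constructor
  unfold tor1
  rw [Measure.smul_apply, Measure.restrict_apply_univ, Real.volume_Ico, sub_zero, smul_eq_mul]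
  exact ENNReal.inv_mul_cancel (by simp [Real.pi_pos]) ENNReal.ofReal_ne_top

lemma isProb_tor (d : ℕ) : IsProbabilityMeasure (tor d) := by
  have := isProb_tor1
  unfold tor
  infer_instance

lemma tau_eq (m n : ℕ) :
    Real.sqrt (((2 ^ m : ℕ) : ℝ) / 2 ^ n) = (2:ℝ) ^ (((m : ℝ) - n) / 2) := by
  have h1 : (((2 ^ m : ℕ) : ℝ) / 2 ^ n) = (2:ℝ) ^ ((m : ℝ) - n) := by
    rw [Real.rpow_sub (by norm_num), Real.rpow_natCast, Real.rpow_natCast]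
    push_cast
    rfl
  rw [h1, Real.sqrt_eq_rpow, ← Real.rpow_mul (by norm_num)]
  congr 1
  ring

theorem H_pack
    (hL2 : ∀ {d : ℕ} {𝕜 : Type} [RCLike 𝕜] {Ω : Type} [MeasurableSpace Ω]
      (P : Measure Ω) [IsProbabilityMeasure P] (fX : Ω → (Fin d → ℝ) → 𝕜)
      (_ : ∀ X, Continuous (fX X))
      (_ : ∀ X x j, fX X (Function.update x j (x j + 2 * π)) = fX X x)
      (F : Set ((Fin d → ℝ) → 𝕜)) (G : Set Ω) (_ : 1 / 2 ≤ P.real G) (_ : ∀ X ∈ G, fX X ∈ F)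
      (ε q : ℝ) (_ : 0 < ε)
      (_ : ∀ Y ∈ G, P.real {X | X ∈ G ∧ ∀ x, ‖fX X x - fX Y x‖ ≤ 2 * ε} ≤ q)
      (n : ℕ) (_ : 2 ^ n * q < 1 / 2), ENNReal.ofReal ε ≤ entropyNumber n F)
    (hubc : ∀ (u : ℝ → ℝ) (_ : Continuous u)
      (_ : ∀ t, (t ≤ 1 / 10 ∨ 9 / 10 ≤ t) → u t = 0) (s c : ℕ), Continuous (ub u s c))
    (hubp : ∀ (u : ℝ → ℝ) (s c : ℕ) (x : ℝ), ub u s c (x + 2 * π) = ub u s c x)
    (hkb : ∀ {d : ℕ} (u : ℝ → ℝ) (Sh : Finset (Fin d → ℕ)) (x y : Fin d → ℝ),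
      kb u Sh x y = ∑ s ∈ Sh, ∑ c ∈ cells s, sblk u s c x * sblk u s c y)
    (hL5 : ∀ (e : ℕ) (_ : 1 ≤ e) (u : ℝ → ℝ) (_ : Continuous u)
      (_ : ∀ t, |u t| ≤ 1) (_ : ∀ t, (t ≤ 1 / 10 ∨ 9 / 10 ≤ t) → u t = 0)
      (_ : ∫ t, u t = 0) (ν : ℝ) (_ : 0 < ν) (_ : ∫ t, u t ^ 2 = ν) (B₁ : ℝ) (_ : 0 < B₁),
      ∃ α > 0, ∃ m₂ : ℕ, ∀ m₀ m₁ N : ℕ, m₂ ≤ m₁ → m₀ ≤ m₁ → m₁ ≤ 2 * m₀ → m₂ ≤ N →
      (N : ℝ) * m₁ ≤ B₁ * 2 ^ m₀ * ((m₁ - m₀ + 1 : ℕ) : ℝ) ^ 2 * (m₁ : ℝ) ^ e →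
      ∃ 𝒯 : Set (Fin N → Fin (e + 1) → ℝ), MeasurableSet 𝒯 ∧
        2 / 3 ≤ (Measure.pi fun _ : Fin N => tor (e + 1)).real 𝒯 ∧
        (∀ X ∈ 𝒯, |∑ i, ∑ j, kb u (Shp e m₀ m₁) (X i) (X j) -
          N * (ν ^ (e + 1) * (Shp e m₀ m₁).card)| ≤
            1 / 16 * N * (ν ^ (e + 1) * (Shp e m₀ m₁).card)) ∧
        ∀ Y ∈ 𝒯, (Measure.pi fun _ : Fin N => tor (e + 1)).real
          {X | N * (ν ^ (e + 1) * (Shp e m₀ m₁).card) / 2 ≤
            ∑ i, ∑ j, kb u (Shp e m₀ m₁) (X i) (Y j)} ≤ Real.exp (-(α * m₁ * N / 8)))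
    (hL6 : ∀ (e : ℕ) (u : ℝ → ℝ) (_ : ContDiff ℝ (⊤ : ℕ∞) u)
      (_ : ∀ t, (t ≤ 1 / 10 ∨ 9 / 10 ≤ t) → u t = 0) (r : ℝ) (_ : 0 < r)
      (p : ℝ≥0∞) (𝕜 : Type) [RCLike 𝕜],
      ∃ K > 0, ∀ (Sh : Finset (Fin (e + 1) → ℕ)) (a : (Fin (e + 1) → ℕ) → (Fin (e + 1) → ℕ) → ℝ),
      (∀ s ∈ Sh, ∀ c ∈ cells s, |a s c| ≤ (2 : ℝ) ^ (-(r * ∑ j, (s j : ℝ)))) →
      (fun x => ((K * ∑ s ∈ Sh, ∑ c ∈ cells s, a s c * sblk u s c x : ℝ) : 𝕜)) ∈
        Hclass (e + 1) 𝕜 r p)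
    (hclip : ∀ {ι : Type} (I : Finset ι) (a b τ : ι → ℝ) (K : ℝ) (_ : 0 < K)
      (_ : ∀ i ∈ I, 0 < τ i),
      ∑ i ∈ I, (a i - b i) ^ 2 - 4 * ∑ i ∈ I, (if K * τ i < |a i| then a i ^ 2 else 0) -
        4 * ∑ i ∈ I, (if K * τ i < |b i| then b i ^ 2 else 0) ≤
      ∑ i ∈ I, τ i * (clip K (a i / τ i) - clip K (b i / τ i)) * (a i - b i))
    (hEK : ∀ (e : ℕ) (u : ℝ → ℝ) (_ : Continuous u) (_ : ∀ t, |u t| ≤ 1)
      (_ : ∀ t, (t ≤ 1 / 10 ∨ 9 / 10 ≤ t) → u t = 0) (_ : ∫ t, u t = 0)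
      (m₀ m₁ N : ℕ) (_ : 2 ^ m₁ ≤ N) (K : ℝ) (_ : 0 < K),
      Integrable (fun X : Fin N → Fin (e + 1) → ℝ => ∑ s ∈ Shp e m₀ m₁, ∑ c ∈ cells s,
        (if K * Real.sqrt (N / 2 ^ (∑ j, s j)) < |SX u X s c| then SX u X s c ^ 2 else 0))
        (Measure.pi fun _ : Fin N => tor (e + 1)) ∧
      ∫ X : Fin N → Fin (e + 1) → ℝ, ∑ s ∈ Shp e m₀ m₁, ∑ c ∈ cells s,
        (if K * Real.sqrt (N / 2 ^ (∑ j, s j)) < |SX u X s c| then SX u X s c ^ 2 else 0)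
        ∂(Measure.pi fun _ : Fin N => tor (e + 1)) ≤ 4 * N * (Shp e m₀ m₁).card / K ^ 2)
    (e : ℕ) (he : 1 ≤ e) (r : ℝ) (hr : 0 < r) (hr2 : r ≤ 1 / 2) (𝕜 : Type)
    [RCLike 𝕜] (p : ℝ≥0∞) (B₁ : ℝ) (hB₁ : 0 < B₁) :
    ∃ c > 0, ∃ m₂ : ℕ, ∀ m₀ m₁ : ℕ, m₂ ≤ m₁ → m₀ ≤ m₁ → m₁ ≤ 2 * m₀ →
      (2 : ℝ) ^ m₁ * m₁ ≤ B₁ * 2 ^ m₀ * ((m₁ - m₀ + 1 : ℕ) : ℝ) ^ 2 * (m₁ : ℝ) ^ e →
      ∀ n : ℕ, (n : ℝ) ≤ c * m₁ * 2 ^ m₁ →
        ENNReal.ofReal (c * (2 : ℝ) ^ ((1 / 2 - r) * m₀) * (2 : ℝ) ^ (-(m₁ : ℝ) / 2) *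
          (Shp e m₀ m₁).card) ≤ entropyNumber n (Hclass (e + 1) 𝕜 r p) := by
  have := isProb_tor (e + 1)
  obtain ⟨u, hu, hu1, -, -, hpl, hsupp, hint⟩ := Pool.Agent.Helper96.SB.exists_block
  have huc : Continuous u := hu.continuous
  set ν := ∫ t, u t ^ 2 with hν
  have hν0 : 0 < ν := nu_pos huc hpl hsupp
  obtain ⟨α, hα, m2, h5⟩ := hL5 e he u huc hu1 hsupp hint ν hν0 rfl B₁ hB₁
  obtain ⟨KH, hKH, h6⟩ := hL6 e u hu hsupp r hr p 𝕜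
  set K := Real.sqrt (1280 / ν ^ (e + 1)) with hKdef
  have hK2 : K ^ 2 = 1280 / ν ^ (e + 1) := Real.sq_sqrt (by positivity)
  have hK : 0 < K := Real.sqrt_pos.2 (by positivity)
  set c := min (α / 16) (KH * ν ^ (e + 1) / (8 * K)) with hc
  have hc0 : 0 < c := lt_min (by positivity) (by positivity)
  obtain ⟨m3, hm3⟩ := exists_nat_ge (16 / α)
  refine ⟨c, hc0, max m2 (max m3 1), ?_⟩
  intro m₀ m₁ hm2 hm01 hm10 hcond n hn
  have hm2' : m2 ≤ m₁ := (le_max_left _ _).trans hm2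
  have hm3' : m3 ≤ m₁ := (le_max_left _ _).trans ((le_max_right _ _).trans hm2)
  have hm1' : 1 ≤ m₁ := (le_max_right _ _).trans ((le_max_right _ _).trans hm2)
  rcases Nat.eq_zero_or_pos (Shp e m₀ m₁).card with hcard | hcard
  · rw [hcard]; simp
  set Sh := Shp e m₀ m₁ with hSh
  have hcardr : (0:ℝ) < Sh.card := by exact_mod_cast hcard
  set N : ℕ := 2 ^ m₁ with hNdef
  have hN0 : 0 < N := by positivity
  have hNr : (0:ℝ) < N := by exact_mod_cast hN0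
  have hNcast : ((N : ℕ) : ℝ) = 2 ^ m₁ := by rw [hNdef]; push_cast; rfl
  have hmN : m₁ ≤ N := (Nat.lt_pow_self (by norm_num)).le
  obtain ⟨𝒯, h𝒯m, h𝒯P, h𝒯d, h𝒯q⟩ := h5 m₀ m₁ N hm2' hm01 hm10 (hm2'.trans hmN)
    (by rw [hNcast]; exact hcond)
  set P := (Measure.pi fun _ : Fin N => tor (e + 1)) with hP
  set κ0 := ν ^ (e + 1) * (Sh.card : ℝ) with hκ0
  have hκ0p : 0 < κ0 := by positivity
  set w := (2 : ℝ) ^ ((1 / 2 - r) * m₀) * (2 : ℝ) ^ (-(m₁ : ℝ) / 2) / K with hw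
  have hw0 : 0 < w := by positivity
  set ε := KH * w * κ0 / 8 with hε
  have hε0 : 0 < ε := by positivity
  -- the exceptional energy
  obtain ⟨hEi, hEle⟩ := hEK e u huc hu1 hsupp hint m₀ m₁ N le_rfl K hK
  have hEi' : Integrable (fun X : Fin N → Fin (e + 1) → ℝ => EK u Sh K X) P := hEi
  have hEle' : ∫ X, EK u Sh K X ∂P ≤ 4 * N * Sh.card / K ^ 2 := hEle
  have hEnn : ∀ X : Fin N → Fin (e + 1) → ℝ, 0 ≤ EK u Sh K X := by
    intro X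
    unfold EK
    refine Finset.sum_nonneg fun s _ => Finset.sum_nonneg fun c _ => ?_
    split_ifs <;> positivity
  have hMk : P.real {X | N * κ0 / 32 ≤ EK u Sh K X} ≤ 1 / 10 := by
    have h1 := mul_meas_ge_le_integral_of_nonneg (Filter.Eventually.of_forall hEnn) hEi'
      (N * κ0 / 32)
    have h2 := h1.trans hEle'
    rw [hK2] at h2
    have h3 : 4 * (N:ℝ) * Sh.card / (1280 / ν ^ (e + 1)) = (N * κ0 / 32) * (1 / 10) := by
      rw [hκ0]; field_simp; ring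
    rw [h3] at h2
    exact le_of_mul_le_mul_left h2 (by positivity)
  set G : Set (Fin N → Fin (e + 1) → ℝ) := {X | X ∈ 𝒯 ∧ EK u Sh K X < N * κ0 / 32} with hG
  have hPG : 1 / 2 ≤ P.real G := by
    have hsub : 𝒯 ⊆ G ∪ {X | N * κ0 / 32 ≤ EK u Sh K X} := by
      intro X hX
      by_cases h : EK u Sh K X < N * κ0 / 32
      · exact Or.inl ⟨hX, h⟩
      · exact Or.inr (not_lt.1 h)
    have h1 : P.real 𝒯 ≤ P.real G + P.real {X | N * κ0 / 32 ≤ EK u Sh K X} :=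
      (measureReal_mono hsub).trans (measureReal_union_le _ _)
    linarith
  -- the functions
  have hfX : ∀ X : Fin N → Fin (e + 1) → ℝ,
      (fun x => ((FX u Sh KH w K X x : ℝ) : 𝕜)) ∈ Hclass (e + 1) 𝕜 r p := by
    intro X
    refine h6 Sh (coef u w K X) ?_
    intro s hs c _
    have hs' : m₀ ≤ ∑ j, s j ∧ ∑ j, s j ≤ m₁ := (Finset.mem_filter.1 hs).2
    unfold coef
    rw [abs_mul, abs_mul, abs_of_pos hw0, abs_of_nonneg (Real.sqrt_nonneg _), tau_eq _ _]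
    have h1 := abs_clip_le hK.le (SX u X s c / (2:ℝ) ^ (((m₁ : ℝ) - (∑ j, s j : ℕ)) / 2))
    have h2 : w * ((2:ℝ) ^ (((m₁ : ℝ) - (∑ j, s j : ℕ)) / 2) *
        |clip K (SX u X s c / (2:ℝ) ^ (((m₁ : ℝ) - (∑ j, s j : ℕ)) / 2))|) ≤
        w * ((2:ℝ) ^ (((m₁ : ℝ) - (∑ j, s j : ℕ)) / 2) * K) := by gcongr
    refine h2.trans ?_
    have h3 : w * ((2:ℝ) ^ (((m₁ : ℝ) - (∑ j, s j : ℕ)) / 2) * K) =
        (2 : ℝ) ^ ((1 / 2 - r) * m₀ + -(m₁ : ℝ) / 2 + ((m₁ : ℝ) - (∑ j, s j : ℕ)) / 2) := by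
      rw [Real.rpow_add (by norm_num), Real.rpow_add (by norm_num), hw]
      field_simp
    rw [h3]
    apply Real.rpow_le_rpow_of_exponent_le (by norm_num)
    have h4 : (m₀ : ℝ) ≤ ((∑ j, s j : ℕ) : ℝ) := by exact_mod_cast hs'.1
    have h5 : ((∑ j, s j : ℕ) : ℝ) = ∑ j, (s j : ℝ) := by push_cast; rfl
    rw [← h5]
    nlinarith [mul_nonneg (sub_nonneg.2 hr2) (sub_nonneg.2 h4)]
  have hkey : ENNReal.ofReal ε ≤ entropyNumber n (Hclass (e + 1) 𝕜 r p) := by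
    refine hL2 P (fun X x => ((FX u Sh KH w K X x : ℝ) : 𝕜)) ?_ ?_ (Hclass (e + 1) 𝕜 r p) G hPG
      (fun X _ => hfX X) ε (Real.exp (-(α * m₁ * N / 8))) hε0 ?_ n ?_
    · intro X
      refine RCLike.continuous_ofReal.comp ?_
      unfold FX
      refine continuous_const.mul ?_
      refine continuous_finsetSum _ fun s _ => continuous_finsetSum _ fun c _ => ?_
      exact continuous_const.mul (sblk_continuous u (hubc u huc hsupp) s c)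
    · intro X x j
      simp only [FX, sblk_periodic u (hubp u)]
    · intro Y hY
      refine le_trans (measureReal_mono ?_) (h𝒯q Y hY.1)
      rintro X ⟨hX, hcl⟩
      show N * κ0 / 2 ≤ ∑ i, ∑ j, kb u Sh (X i) (Y j)
      have hdX := (abs_le.1 (h𝒯d X hX.1)).1
      have hdY := (abs_le.1 (h𝒯d Y hY.1)).1
      refine main_ineq u Sh hKH hw0 hK hN0 (hkb u Sh) hclip X Y hκ0p hε (by linarith)
        (by linarith) hX.2 hY.2 ?_
      intro x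
      have := hcl x
      rwa [← RCLike.ofReal_sub, RCLike.norm_ofReal] at this
    · have h1 : (2:ℝ) ^ n ≤ Real.exp n := by
        have : (2:ℝ) ≤ Real.exp 1 := by
          have := Real.add_one_le_exp (1:ℝ)
          linarith
        calc (2:ℝ) ^ n ≤ (Real.exp 1) ^ n := by gcongr
          _ = Real.exp n := by rw [← Real.exp_nat_mul, mul_one]
      have h2 : (n:ℝ) ≤ α / 16 * (m₁ * N) := by
        rw [hNcast]
        calc (n:ℝ) ≤ c * m₁ * 2 ^ m₁ := hn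
          _ = c * (m₁ * 2 ^ m₁) := by ring
          _ ≤ α / 16 * (m₁ * 2 ^ m₁) := by
            gcongr
            exact min_le_left _ _
      have h3 : 16 ≤ α * (m₁ * N) := by
        have hm3r : 16 / α ≤ m₁ := hm3.trans (by exact_mod_cast hm3')
        have hN1 : (1:ℝ) ≤ N := by exact_mod_cast hN0
        rw [div_le_iff₀ hα] at hm3r
        have hm1r : (0:ℝ) ≤ m₁ := Nat.cast_nonneg _
        nlinarith [mul_nonneg hm1r (sub_nonneg.2 hN1)]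
      calc (2:ℝ) ^ n * Real.exp (-(α * m₁ * N / 8))
          ≤ Real.exp n * Real.exp (-(α * m₁ * N / 8)) := by gcongr
        _ = Real.exp (n + -(α * m₁ * N / 8)) := (Real.exp_add _ _).symm
        _ ≤ Real.exp (-1) := by
          apply Real.exp_le_exp.2
          nlinarith
        _ < 1 / 2 := by
          have := Real.exp_neg_one_lt_d9
          linarith
  refine le_trans (ENNReal.ofReal_le_ofReal ?_) hkey
  rw [hε, hw, hκ0]
  have h1 : c ≤ KH * ν ^ (e + 1) / (8 * K) := min_le_right _ _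
  calc c * (2 : ℝ) ^ ((1 / 2 - r) * m₀) * (2 : ℝ) ^ (-(m₁ : ℝ) / 2) * Sh.card
      ≤ KH * ν ^ (e + 1) / (8 * K) * (2 : ℝ) ^ ((1 / 2 - r) * m₀) * (2 : ℝ) ^ (-(m₁ : ℝ) / 2) *
        Sh.card := by gcongr
    _ = _ := by field_simp

end Pool.Agent.Helper73.SB
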